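import Pool.Agent.Helper15.RA.GoalsK

/-!
# Project RA, packet KP: the product `T_g T_h` inside a vertex group, in terms of the `c_l`.
-/

set_option autoImplicit false

open LaurentPolynomial Pool.Agent.Helper15.RA

noncomputable section

namespace Pool.Agent.Helper49.RA

section

variable {I W V H : Type} [Group W] [Ring H] [Algebra ℤ[T;T⁻¹] H] (X : Ctx I W V H)

/-- `T_g`, `g ∈ G u`, is a combination of the `c_k`, `k ∈ G u`. -/
theorem supp_tc (h2 : H_2) (b : Module.Basis W ℤ[T;T⁻¹] H) (hb : ∀ w, b w = X.D.c w) (u : V) :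
    ∀ (n : ℕ) (g : W), g ∈ X.G u → X.cs.length g ≤ n → ∀ y, y ∉ X.G u → b.repr (X.D.t g) y = 0 := by
  classical
  obtain ⟨-, -, -, hc1, hc2, -, -, -, -, -⟩ := h2 I W H X.M X.cs X.L X.wt X.D
  intro n
  induction n using Nat.strong_induction_on with
  | _ n ih =>
    intro g hg hn y hy
    have h3 : X.D.c g = (X.D.t.repr (X.D.c g)).sum fun z p => p • X.D.t z := by
      conv_lhs => rw [← X.D.t.linearCombination_repr (X.D.c g)]
      rfl
    have h4 : b.repr (X.D.c g) y = (X.D.t.repr (X.D.c g)).sum fun z p => p * b.repr (X.D.t z) y := by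
      conv_lhs => rw [h3]
      rw [Finsupp.sum, Finsupp.sum, map_sum, Finsupp.finsetSum_apply]
      refine Finset.sum_congr rfl fun z _ => ?_
      rw [map_smul, Finsupp.smul_apply, smul_eq_mul]
    have hgy : g ≠ y := fun h => hy (by rw [← h]; exact hg)
    rw [← hb g, b.repr_self, Finsupp.single_apply, if_neg hgy, hb g, Finsupp.sum,
      Finset.sum_eq_single g] at h4
    · rw [hc1, one_mul] at h4
      exact h4.symm
    · intro z hz hzg
      have hz0 : X.D.t.repr (X.D.c g) z ≠ 0 := Finsupp.mem_support_iff.1 hz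
      have hzl : X.cs.length z < X.cs.length g := (hc2 g z hz0).resolve_left hzg
      rw [ih (X.cs.length z) (by omega) z (X.supp u g hg z hz0) le_rfl y hy, mul_zero]
    · intro h
      rw [Finsupp.notMem_support_iff.1 h, zero_mul]

end

theorem h_kp (h2 : H_2) (h3 : H_3) : K_P := by
  classical
  intro I W V H _ _ _ X u g h hg hh
  obtain ⟨⟨b, hb, hb1, hb2⟩, -⟩ := h3 I W H X.M X.cs X.L X.wt X.D
  have hsupp : ∀ g ∈ X.G u, ∀ y, b.repr (X.D.t g) y ≠ 0 → y ∈ X.G u := by
    intro g hg y hy
    by_contra hyu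
    exact hy (supp_tc X h2 b hb u _ g hg le_rfl y hyu)
  have hdeg0 : ∀ g y, DegLE 0 (b.repr (X.D.t g) y) := by
    intro g y
    by_cases hy : y = g
    · rw [hy, hb1]
      exact DegLE.one le_rfl
    · exact ((hb2 g y hy).1).mono (by omega)
  have hexp : ∀ g, X.D.t g = ∑ z ∈ (b.repr (X.D.t g)).support, b.repr (X.D.t g) z • X.D.c z := by
    intro g
    conv_lhs => rw [← b.linearCombination_repr (X.D.t g)]
    rw [Finsupp.linearCombination_apply, Finsupp.sum]
    exact Finset.sum_congr rfl fun z _ => by rw [hb]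
  have hh' : ∀ x y, b.repr (X.D.c x * X.D.c y) = X.h x y := by
    intro x y
    rw [X.isH x y]
    have h5 : ((X.h x y).sum fun z p => p • X.D.c z) = Finsupp.linearCombination _ b (X.h x y) := by
      rw [Finsupp.linearCombination_apply]
      exact Finset.sum_congr rfl fun z _ => by simp only [hb]
    rw [h5, b.repr_linearCombination]
  have hη : ∀ l, b.repr (X.D.t g * X.D.t h) l = ∑ x ∈ (b.repr (X.D.t g)).support,
      ∑ y ∈ (b.repr (X.D.t h)).support,
        b.repr (X.D.t g) x * b.repr (X.D.t h) y * X.h x y l := by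
    intro l
    conv_lhs => rw [hexp g, hexp h]
    rw [Finset.sum_mul_sum, map_sum, Finsupp.finsetSum_apply]
    refine Finset.sum_congr rfl fun x _ => ?_
    rw [map_sum, Finsupp.finsetSum_apply]
    refine Finset.sum_congr rfl fun y _ => ?_
    rw [smul_mul_smul_comm, map_smul, Finsupp.smul_apply, smul_eq_mul, hh']
  have hout : ∀ l, l ∉ X.G u → b.repr (X.D.t g * X.D.t h) l = 0 := by
    intro l hl
    rw [hη]
    refine Finset.sum_eq_zero fun x hx => Finset.sum_eq_zero fun y hy => ?_
    have hxu := hsupp g hg x (Finsupp.mem_support_iff.1 hx)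
    have hyu := hsupp h hh y (Finsupp.mem_support_iff.1 hy)
    have : X.h x y l = 0 := by
      by_contra h0
      exact hl (X.cl u x hxu y hyu l h0)
    rw [this, mul_zero]
  have htop : ∀ l ∈ X.G u, (b.repr (X.D.t g * X.D.t h) l).coeff (X.α l) = (X.h g h l).coeff (X.α l) := by
    intro l hl
    rw [hη]
    have hterm : ∀ x ∈ (b.repr (X.D.t g)).support, ∀ y ∈ (b.repr (X.D.t h)).support, ¬ (x = g ∧ y = h) →
        (b.repr (X.D.t g) x * b.repr (X.D.t h) y * X.h x y l).coeff (X.α l) = 0 := by
      intro x hx y hy hxy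
      have hxu := hsupp g hg x (Finsupp.mem_support_iff.1 hx)
      have hyu := hsupp h hh y (Finsupp.mem_support_iff.1 hy)
      have hd : DegLE (X.α l) (X.h x y l) := X.deg u x hxu y hyu l hl
      have h6 : DegLE (-1) (b.repr (X.D.t g) x * b.repr (X.D.t h) y) := by
        by_cases hxg : x = g
        · have hyh : y ≠ h := fun h => hxy ⟨hxg, h⟩
          exact (hdeg0 g x).mul_le (hb2 h y hyh).1 (by omega)
        · exact (hb2 g x hxg).1.mul_le (hdeg0 h y) (by omega)
      exact (h6.mul_le hd (m := (X.α l : ℤ) - 1) (by omega)) _ (by omega)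
    have hco : ∀ (s : Finset W) (f : W → ℤ[T;T⁻¹]) (n : ℤ),
        (∑ x ∈ s, f x).coeff n = ∑ x ∈ s, (f x).coeff n := by
      intro s f n
      induction s using Finset.induction_on with
      | empty => simp
      | insert i s hi ih =>
        rw [Finset.sum_insert hi, Finset.sum_insert hi, AddMonoidAlgebra.coeff_add, Finsupp.add_apply, ih]
    rw [hco, Finset.sum_eq_single g]
    · rw [hco, Finset.sum_eq_single h]
      · rw [hb1, hb1, one_mul, one_mul]
      · intro y hy hyh
        by_cases hgs : g ∈ (b.repr (X.D.t g)).support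
        · exact hterm g hgs y hy fun h => hyh h.2
        · rw [Finsupp.notMem_support_iff, hb1] at hgs
          exact absurd hgs one_ne_zero
      · intro hhs
        rw [Finsupp.notMem_support_iff, hb1] at hhs
        exact absurd hhs one_ne_zero
    · intro x hx hxg
      rw [hco]
      exact Finset.sum_eq_zero fun y hy => hterm x hx y hy fun h => hxg h.1
    · intro hgs
      rw [Finsupp.notMem_support_iff, hb1] at hgs
      exact absurd hgs one_ne_zero
  have hin : ∀ l, b.repr (X.D.t g * X.D.t h) l ≠ 0 → l ∈ X.G u := fun l hl => by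
    by_contra h0
    exact hl (hout l h0)
  refine ⟨b.repr (X.D.t g * X.D.t h), ?_, fun l => ⟨hin l, ?_, htop l, ?_⟩⟩
  · conv_lhs => rw [← b.linearCombination_repr (X.D.t g * X.D.t h)]
    rw [Finsupp.linearCombination_apply]
    exact Finset.sum_congr rfl fun z _ => by simp only [hb]
  · by_cases hl : l ∈ X.G u
    · rw [hη]
      refine DegLE.sum fun x hx => DegLE.sum fun y hy => ?_
      have hxu := hsupp g hg x (Finsupp.mem_support_iff.1 hx)
      have hyu := hsupp h hh y (Finsupp.mem_support_iff.1 hy)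
      exact ((hdeg0 g x).mul_le (hdeg0 h y) (m := 0) (by omega)).mul_le (X.deg u x hxu y hyu l hl) (by omega)
    · rw [hout l hl]
      exact DegLE.zero _
  · intro h7
    have hl : l ∈ X.G u := by
      refine hin l fun h0 => h7 ?_
      rw [h0]
      rfl
    rw [htop l hl] at h7
    exact X.p8 u g hg h hh l hl h7

end Pool.Agent.Helper49.RA
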